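import Pool.Agent.H48.M3.Dct
import Pool.Agent.H48.M3.Rd0
import Pool.Agent.H48.M3.Ray
import Pool.Agent.H77.AQ.Exm
import Pool.Agent.H48.AQ.Fs

/-!
# AQ, chapter M3 (MP_b39724_nt): the theorem `MS3` for every number field without cube roots of unity

From the dictionary (`H48.M3.dict`), the ray class characters (`H48.M3.ray`) and the expansion (`H77.AQ.exm`).
-/

set_option autoImplicit false

open scoped NumberField Classical
open IsDedekindDomain H38.ML H63.MA H48.M3 H77.AQ H57.LC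

noncomputable section

namespace H97.AQ

variable {K : IntermediateField ℚ QBar} [NumberField K] {M : IntermediateField K QBar}
  [NumberField M] {τ : Gal(M/K)} {ω : M}

/-- a prime of residue degree one, not above 3, is different from its conjugate -/
theorem tv_ne (H : H38.WM.Om τ ω) {v : Pl M} {l : Pl K} (hv : Over v l) (h3 : ¬ Above 3 v)
    (h : nm v = nm l) : tv τ v ≠ v := by
  intro htv
  have hle : l.asIdeal ≤ v.asIdeal.comap (algebraMap (𝓞 K) (𝓞 M)) := le_of_eq hv.symm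
  obtain ⟨f, hf⟩ : ∃ f : 𝓞 K ⧸ l.asIdeal →+* 𝓞 M ⧸ v.asIdeal,
      f = Ideal.quotientMap v.asIdeal (algebraMap (𝓞 K) (𝓞 M)) hle := ⟨_, rfl⟩
  have hinj : Function.Injective f := by
    rw [hf]
    exact Ideal.quotientMap_injective' (le_of_eq hv)
  have hfinl : Finite (𝓞 K ⧸ l.asIdeal) := Ideal.finiteQuotientOfFreeOfNeBot _ l.ne_bot
  have hfinv : Finite (𝓞 M ⧸ v.asIdeal) := Ideal.finiteQuotientOfFreeOfNeBot _ v.ne_bot
  have hcard : Nat.card (𝓞 M ⧸ v.asIdeal) ≤ Nat.card (𝓞 K ⧸ l.asIdeal) := by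
    have h1 : Nat.card (𝓞 M ⧸ v.asIdeal) = nm v := rfl
    have h2 : Nat.card (𝓞 K ⧸ l.asIdeal) = nm l := rfl
    rw [h1, h2, h]
  have hbij := hinj.bijective_of_nat_card_le hcard
  have hω3 : ω ^ 3 = 1 := H.prim.pow_eq_one
  have hint : IsIntegral ℤ ω := IsIntegral.of_pow (n := 3) (by norm_num) (by rw [hω3]; exact isIntegral_one)
  obtain ⟨w, hw⟩ : ∃ w : 𝓞 M, (w : M) = ω := ⟨⟨ω, hint⟩, rfl⟩
  obtain ⟨b', hb'⟩ := hbij.2 (Ideal.Quotient.mk v.asIdeal w)
  obtain ⟨b, rfl⟩ := Ideal.Quotient.mk_surjective b'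
  rw [hf, Ideal.quotientMap_mk, Ideal.Quotient.eq] at hb'
  have h1 : w - algebraMap (𝓞 K) (𝓞 M) b ∈ v.asIdeal := by
    have h2 := v.asIdeal.neg_mem hb'
    rwa [neg_sub] at h2
  have h2 : τ • (w - algebraMap (𝓞 K) (𝓞 M) b) ∈ v.asIdeal := by
    rw [← tv_mem, htv]
    exact h1
  have h4 : τ • (w - algebraMap (𝓞 K) (𝓞 M) b) = w ^ 2 - algebraMap (𝓞 K) (𝓞 M) b := by
    apply NumberField.RingOfIntegers.ext
    have h5 : ((τ • (w - algebraMap (𝓞 K) (𝓞 M) b) : 𝓞 M) : M) =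
        τ ((w - algebraMap (𝓞 K) (𝓞 M) b : 𝓞 M) : M) := rfl
    have h6 : ((algebraMap (𝓞 K) (𝓞 M) b : 𝓞 M) : M) = algebraMap K M (b : K) := rfl
    have h7 : ((w - algebraMap (𝓞 K) (𝓞 M) b : 𝓞 M) : M) = (w : M) - algebraMap K M (b : K) := by
      rw [← h6]
      exact map_sub (algebraMap (𝓞 M) M) _ _
    have h8 : ((w ^ 2 - algebraMap (𝓞 K) (𝓞 M) b : 𝓞 M) : M) =
        (w : M) ^ 2 - algebraMap K M (b : K) := by
      rw [← h6]
      rw [← map_pow (algebraMap (𝓞 M) M)]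
      exact map_sub (algebraMap (𝓞 M) M) _ _
    rw [h5, h7, h8, map_sub, AlgEquiv.commutes, hw, H.act]
  rw [h4] at h2
  have h5 : w * (w - 1) ∈ v.asIdeal := by
    have h6 := v.asIdeal.sub_mem h2 h1
    have h7 : w ^ 2 - algebraMap (𝓞 K) (𝓞 M) b - (w - algebraMap (𝓞 K) (𝓞 M) b) = w * (w - 1) := by
      ring
    rwa [h7] at h6
  have hw3 : w ^ 3 = 1 := by
    apply NumberField.RingOfIntegers.ext
    have h6 : ((w ^ 3 : 𝓞 M) : M) = (w : M) ^ 3 := map_pow (algebraMap (𝓞 M) M) _ _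
    rw [h6, hw, hω3]
    rfl
  have h6 : w - 1 ∈ v.asIdeal := by
    have h7 := v.asIdeal.mul_mem_left (w ^ 2) h5
    have h8 : w ^ 2 * (w * (w - 1)) = w ^ 3 * (w - 1) := by ring
    rwa [h8, hw3, one_mul] at h7
  have hgs : w ^ 2 + w + 1 = 0 := by
    apply NumberField.RingOfIntegers.ext
    have h7 : ((w ^ 2 + w + 1 : 𝓞 M) : M) = (w : M) ^ 2 + (w : M) + 1 := by
      have h8 := map_add (algebraMap (𝓞 M) M) (w ^ 2 + w) 1
      have h9 := map_add (algebraMap (𝓞 M) M) (w ^ 2) w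
      rw [h9, map_pow, map_one] at h8
      exact h8
    have h8 := H.prim.geom_sum_eq_zero (by norm_num)
    rw [Finset.sum_range_succ, Finset.sum_range_succ, Finset.sum_range_one, pow_zero,
      pow_one] at h8
    rw [h7, hw]
    have h9 : (((0 : 𝓞 M)) : M) = 0 := map_zero (algebraMap (𝓞 M) M)
    rw [h9]
    linear_combination h8
  apply h3
  show ((3 : ℕ) : 𝓞 M) ∈ v.asIdeal
  have h7 : ((3 : ℕ) : 𝓞 M) = (-(w + 2)) * (w - 1) := by
    push_cast
    linear_combination (1 : 𝓞 M) * hgs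
  rw [h7]
  exact v.asIdeal.mul_mem_left _ h6

/-- the good primes over `l` -/
theorem aa_tr (H : H38.WM.Om τ ω) (D : RD0 M 3 ω) {S : Finset (Pl K)} (hD : SO D S)
    (B : Pl K → Finset (Pl M)) (hB : ∀ l, l ∉ S → ∀ v, v ∈ B l ↔ Over v l ∧ nm v = nm l)
    (hBS : ∀ l ∈ S, B l = ∅) (a : Finset (Pl M)) : a ∈ AA D τ ↔ Tr (bel K) B a := by
  constructor
  · intro ha
    have hne : ∀ v ∈ a, tv τ v ≠ v := by
      intro v hv h
      apply (ha v hv).2
      rw [h]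
      exact hv
    refine ⟨fun v hv => ?_, fun v hv w hw h => ?_⟩
    · have hS : bel K v ∉ S := fun h => (ha v hv).1 ((hD v).2 ⟨_, h, bel_over v⟩)
      rw [hB _ hS]
      exact ⟨bel_over v, geo_nm H (bel_over v) (hne v hv)⟩
    · have h1 : Over w (bel K v) := by
        rw [h]
        exact bel_over w
      rcases geo_eq H (bel_over v) h1 (hne v hv) with h2 | h2
      · exact h2.symm
      · exfalso
        apply (ha v hv).2
        rw [← h2]
        exact hw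
  · rintro ⟨h1, h2⟩ v hv
    have hS : bel K v ∉ S := by
      intro h
      have h3 := h1 v hv
      rw [hBS _ h] at h3
      exact Finset.notMem_empty v h3
    have hv0 : v ∉ D.S0 := by
      intro h
      obtain ⟨l, hl, hvl⟩ := (hD v).1 h
      apply hS
      rw [bel_iff.2 hvl]
      exact hl
    refine ⟨hv0, fun h => ?_⟩
    have h3 : bel K (tv τ v) = bel K v := bel_iff.2 (tv_over τ v _ (bel_over v))
    have h4 := h2 h hv h3
    have h5 := ((hB _ hS v).1 (h1 v hv)).2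
    exact tv_ne H (bel_over v) (fun h6 => hv0 (D.above v h6)) h5 h4

/-- the values of `mm` -/
theorem mm_eq (H : H38.WM.Om τ ω) (D : RD0 M 3 ω) {S : Finset (Pl K)} (hD : SO D S)
    {ε : Mˣ} (hε : TUnit D.S0 ε) {a : Finset (Pl M)} (ha : a ∈ AA D τ) {l : Pl K} (hl : l ∉ S) :
    mm D τ ε a l = if l ∈ a.image (bel K) then (-1 : ℂ) else
      ep 3 (lg 3 ω (pw M l) ε + ∑ v ∈ a, lg 3 ω (pw M l) (D.pi v * (cj τ (D.pi v))⁻¹)) +
      ep 3 (-(lg 3 ω (pw M l) ε + ∑ v ∈ a, lg 3 ω (pw M l) (D.pi v * (cj τ (D.pi v))⁻¹))) := by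
  have hiff : Bl a l ↔ l ∈ a.image (bel K) := by
    rw [Finset.mem_image]
    constructor
    · rintro ⟨v, hv, h⟩
      exact ⟨v, hv, bel_iff.2 h⟩
    · rintro ⟨v, hv, h⟩
      exact ⟨v, hv, bel_iff.1 h⟩
  unfold mm
  by_cases h : Bl a l
  · rw [if_pos h, if_pos (hiff.1 h)]
  rw [if_neg h, if_neg (fun h' => h (hiff.2 h'))]
  have hw : pw M l ∉ D.S0 := by
    intro h1
    obtain ⟨l', hl', h2⟩ := (hD _).1 h1
    rw [below_unique (pw_over l) h2] at hl
    exact hl hl'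
  have h3 : ¬ Above 3 (pw M l) := fun h1 => hw (D.above _ h1)
  have hord : ∀ v ∈ a, ord (pw M l) (D.pi v * (cj τ (D.pi v))⁻¹) = 0 := by
    intro v hv
    have h1 := nf_ord H D hD (a := {v}) (fun u hu => by
      rw [Finset.mem_singleton.1 hu]
      exact (ha v hv).1) (pw M l) hw
    have h2 : yy D τ {v} = D.pi v * (cj τ (D.pi v))⁻¹ := Finset.prod_singleton _ _
    rw [h2] at h1
    rw [h1, if_neg, if_neg, sub_zero]
    · intro h4
      have h5 := Finset.mem_singleton.1 h4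
      apply h
      refine ⟨v, hv, ?_⟩
      rw [← h5]
      exact tv_over τ _ _ (pw_over l)
    · intro h4
      have h5 := Finset.mem_singleton.1 h4
      apply h
      refine ⟨v, hv, ?_⟩
      rw [← h5]
      exact pw_over l
  have hsum : ∀ b : Finset (Pl M), b ⊆ a → ord (pw M l) (yy D τ b) = 0 ∧
      lg 3 ω (pw M l) (yy D τ b) = ∑ v ∈ b, lg 3 ω (pw M l) (D.pi v * (cj τ (D.pi v))⁻¹) := by
    intro b
    induction b using Finset.induction_on with
    | empty =>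
      intro _
      have h1 : yy D τ ∅ = 1 := Finset.prod_empty
      rw [h1, Finset.sum_empty]
      exact ⟨ord_one _, lg_one Nat.prime_three H.prim h3⟩
    | insert v b hv ih =>
      intro hb
      have h1 : yy D τ (insert v b) = D.pi v * (cj τ (D.pi v))⁻¹ * yy D τ b :=
        Finset.prod_insert hv
      obtain ⟨h2, h4⟩ := ih ((Finset.subset_insert v b).trans hb)
      have h5 := hord v (hb (Finset.mem_insert_self v b))
      rw [h1, Finset.sum_insert hv, ← h4]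
      exact ⟨by rw [ord_mul, h5, h2, add_zero], lg_mul Nat.prime_three H.prim h3 h5 h2⟩
  obtain ⟨h1, h2⟩ := hsum a subset_rfl
  rw [lg_mul Nat.prime_three H.prim h3 (hε _ hw) h1, h2]

theorem mm_norm (D : RD0 M 3 ω) (τ : Gal(M/K)) (ε : Mˣ) (a : Finset (Pl M)) (l : Pl K) :
    ‖mm D τ ε a l‖ ≤ 2 := by
  unfold mm
  split_ifs
  · rw [norm_neg, norm_one]
    norm_num
  · refine (norm_add_le _ _).trans ?_
    rw [ep_norm, ep_norm]
    norm_num

theorem ms3 (hK : H67.AQ.No3 K) : ∃ S₀ : Finset (Pl K), ∀ S : Finset (Pl K), S₀ ⊆ S →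
    ∀ Q : DP K QBar, H67.AQ.MS3 S Q ∧ H67.AQ.LF3 S Q := by
  obtain ⟨M, hM, τ, ω, H⟩ := H38.WM.exM K hK
  obtain ⟨S₀, hS3, hS₀⟩ := rdm (K := K) M H.prim
  refine ⟨S₀, fun S hS Q => ⟨?_, H48.AQ.lf3 S Q⟩⟩
  obtain ⟨D, hD⟩ := hS₀ S (fun l hl => hS hl)
  intro χ₁ hχ₁
  obtain ⟨U, hU⟩ := uu_ex D.toRD0 τ
  obtain ⟨Ty, hne, hTyU, hdict⟩ := dict H D.toRD0 hD hU Q χ₁ hχ₁
  have hfin : ∀ l : Pl K, {v : Pl M | Over v l ∧ nm v = nm l}.Finite := fun l =>
    (over_finite l).subset fun v hv => hv.1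
  obtain ⟨B, hBd⟩ : ∃ B : Pl K → Finset (Pl M), ∀ l, B l = if l ∈ S then ∅ else
      (hfin l).toFinset := ⟨_, fun _ => rfl⟩
  have hB : ∀ l, l ∉ S → ∀ v, v ∈ B l ↔ Over v l ∧ nm v = nm l := by
    intro l hl v
    rw [hBd, if_neg hl, Set.Finite.mem_toFinset]
    rfl
  have hBS : ∀ l ∈ S, B l = ∅ := by
    intro l hl
    rw [hBd, if_pos hl]
  have hdeg : Module.finrank K M ≤ 9 := (geo_deg H).trans (by norm_num)
  obtain ⟨C₀, A₀, hC₀, hray⟩ := ray H D hD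
  obtain ⟨κ, C, A, δ, hκ, hC, hδ, hδ4, hexm⟩ := exm K M hdeg S B hB hBS D.q
    (fun l v => lg 3 ω (pw M l) (D.pi v * (cj τ (D.pi v))⁻¹))
    ⟨C₀, A₀, hC₀, fun q hq k c hc hkc => by
      obtain ⟨𝔣, h𝔣, hn, ψ, hψ, h⟩ := hray q hq k c hc hkc
      exact ⟨𝔣, h𝔣, hn, ψ, hψ, fun l hl hlq v hv => h l hl hlq v ((hB l hl v).1 hv).1⟩⟩
  have hdg : ∀ l, 0 ≤ dg K M l ∧ dg K M l ≤ Module.finrank ℚ M := by
    intro l
    refine ⟨Nat.cast_nonneg _, ?_⟩
    have h1 := bel_card (K := K) (E := M) l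
    have h2 : {w : Pl M | Over w l ∧ nm w = nm l}.ncard ≤ {w : Pl M | bel K w = l}.ncard := by
      refine Set.ncard_le_ncard (fun w hw => ?_) h1.1
      exact bel_iff.2 hw.1
    have h3 : {w : Pl M | Over w l ∧ nm w = nm l}.ncard ≤ Module.finrank ℚ M := h2.trans h1.2
    unfold dg
    exact_mod_cast h3
  have hnm : ∀ l : Pl K, (0 : ℝ) < nm l := fun l => by
    have := one_lt_nm l
    exact_mod_cast (by omega : 0 < nm l)
  have hTc : (1 : ℝ) ≤ Ty.card := by exact_mod_cast hne.card_pos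
  obtain ⟨N, hN⟩ : ∃ N : ℝ, N = (Module.finrank ℚ M : ℝ) := ⟨_, rfl⟩
  have hN0 : 0 ≤ N := by rw [hN]; exact Nat.cast_nonneg _
  refine ⟨Ty.card * κ, fun l => -(dg K M l) / (nm l + dg K M l), Ty.card * (C + 1) + N, A + 1, δ,
    by positivity, by nlinarith, hδ, by linarith, fun l => ?_, fun l => ?_, fun q hq R hR => ?_⟩
  · have h1 := (hdg l).1
    have h2 := (hdg l).2
    have h3 := hnm l
    show |-(dg K M l) / (nm l + dg K M l)| ≤ _
    rw [neg_div, abs_neg, abs_of_nonneg (by positivity)]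
    refine div_le_div₀ (by positivity) ?_ h3 (by linarith)
    rw [← hN] at h2
    nlinarith
  · have h1 := (hdg l).1
    have h3 := hnm l
    show -1 ≤ -(dg K M l) / (nm l + dg K M l)
    rw [le_div_iff₀ (by linarith)]
    linarith
  · obtain ⟨hCX, hsum⟩ := hdict R
    refine ⟨hCX, ?_⟩
    have hR0 : 0 < R := by linarith
    obtain ⟨AF', hAF⟩ : ∃ AF' : Finset (Finset (Pl M)), AF' = (AF M R).filter fun a =>
      a ∈ AA D.toRD0 τ := ⟨_, rfl⟩
    have hAFm : ∀ a, a ∈ AF' ↔ Tr (bel K) B a ∧ nr a ≤ R := by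
      intro a
      rw [hAF, Finset.mem_filter, mem_AF, aa_tr H D.toRD0 hD B hB hBS a, and_comm]
    obtain ⟨P, hP⟩ : ∃ P : ℝ, P = κ * R * ∏ l ∈ q, (-(dg K M l) / (nm l + dg K M l)) := ⟨_, rfl⟩
    have hq2 : (2 : ℝ) ^ q.card ≤ nr q := by
      unfold nr
      rw [← Finset.prod_const]
      refine Finset.prod_le_prod (fun _ _ => by norm_num) fun l _ => ?_
      exact_mod_cast one_lt_nm l
    have hq1 : 1 ≤ nr q := one_le_nr q
    have hR1 : 1 ≤ R ^ (1 - δ) := Real.one_le_rpow hR (by linarith)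
    have hmain : ∀ x ∈ Ty, ‖∑ a ∈ AR D.toRD0 τ x.2 R,
        (if x.1 = 1 ∧ a = ∅ then (0 : ℂ) else ∏ l ∈ q, mm D.toRD0 τ x.1 a l) - (P : ℂ)‖ ≤
        C * nr q ^ A * R ^ (1 - δ) + 2 ^ q.card := by
      intro x hx
      have h1 := hexm x.2 q hq (fun l => lg 3 ω (pw M l) x.1) R hR AF' hAFm
      have hARe : AR D.toRD0 τ x.2 R = AF'.filter fun a => ∑ v ∈ a, D.q v = x.2 := by
        rw [hAF, AR, Finset.filter_filter]
        rfl
      have h2 : ∑ a ∈ AR D.toRD0 τ x.2 R, ∏ l ∈ q, mm D.toRD0 τ x.1 a l =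
          ∑ a ∈ AF'.filter (fun a => ∑ v ∈ a, D.q v = x.2),
            ∏ l ∈ q, (if l ∈ a.image (bel K) then (-1 : ℂ) else
              ep 3 (lg 3 ω (pw M l) x.1 + ∑ v ∈ a, lg 3 ω (pw M l) (D.pi v * (cj τ (D.pi v))⁻¹)) +
              ep 3 (-(lg 3 ω (pw M l) x.1 +
                ∑ v ∈ a, lg 3 ω (pw M l) (D.pi v * (cj τ (D.pi v))⁻¹)))) := by
        rw [hARe]
        refine Finset.sum_congr rfl fun a ha => Finset.prod_congr rfl fun l hl => ?_
        have ha' : a ∈ AA D.toRD0 τ := by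
          have h3 := (Finset.mem_filter.1 ha).1
          rw [hAF] at h3
          exact (Finset.mem_filter.1 h3).2
        exact mm_eq H D.toRD0 hD (hU.tu x.1 (hTyU x hx)) ha' (hq l hl)
      rw [← h2, ← hP] at h1
      have h3 : ‖∑ a ∈ AR D.toRD0 τ x.2 R,
          (if x.1 = 1 ∧ a = ∅ then (0 : ℂ) else ∏ l ∈ q, mm D.toRD0 τ x.1 a l) -
          ∑ a ∈ AR D.toRD0 τ x.2 R, ∏ l ∈ q, mm D.toRD0 τ x.1 a l‖ ≤ 2 ^ q.card := by
        rw [← Finset.sum_sub_distrib]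
        have h4 : ∀ a ∈ AR D.toRD0 τ x.2 R, a ≠ ∅ →
            (if x.1 = 1 ∧ a = ∅ then (0 : ℂ) else ∏ l ∈ q, mm D.toRD0 τ x.1 a l) -
              ∏ l ∈ q, mm D.toRD0 τ x.1 a l = 0 := by
          intro a _ ha
          rw [if_neg (fun h => ha h.2), sub_self]
        have h5 : ∀ a : Finset (Pl M), ‖(if x.1 = 1 ∧ a = ∅ then (0 : ℂ) else
            ∏ l ∈ q, mm D.toRD0 τ x.1 a l) - ∏ l ∈ q, mm D.toRD0 τ x.1 a l‖ ≤ 2 ^ q.card := by
          intro a
          split_ifs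
          · rw [zero_sub, norm_neg, norm_prod, ← Finset.prod_const]
            exact Finset.prod_le_prod (fun _ _ => norm_nonneg _) fun l _ => mm_norm _ _ _ _ _
          · rw [sub_self, norm_zero]
            positivity
        by_cases h6 : (∅ : Finset (Pl M)) ∈ AR D.toRD0 τ x.2 R
        · rw [Finset.sum_eq_single_of_mem _ h6 (fun a ha hne => h4 a ha hne)]
          exact h5 ∅
        · rw [Finset.sum_eq_zero fun a ha => h4 a ha (fun h => h6 (h ▸ ha)), norm_zero]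
          positivity
      calc _ = ‖(∑ a ∈ AR D.toRD0 τ x.2 R,
            (if x.1 = 1 ∧ a = ∅ then (0 : ℂ) else ∏ l ∈ q, mm D.toRD0 τ x.1 a l) -
            ∑ a ∈ AR D.toRD0 τ x.2 R, ∏ l ∈ q, mm D.toRD0 τ x.1 a l) +
            (∑ a ∈ AR D.toRD0 τ x.2 R, ∏ l ∈ q, mm D.toRD0 τ x.1 a l - (P : ℂ))‖ := by
            rw [sub_add_sub_cancel]
        _ ≤ 2 ^ q.card + C * nr q ^ A * R ^ (1 - δ) := (norm_add_le _ _).trans (add_le_add h3 h1)
        _ = _ := add_comm _ _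
    have hT : (Ty.card * κ * R * ∏ l ∈ q, (-(dg K M l) / (nm l + dg K M l)) : ℝ) = Ty.card * P := by
      rw [hP]
      ring
    have htot : ‖((∑ᶠ χ ∈ H38.MT.CX Q S χ₁ R, ∏ l ∈ q, H67.AQ.mu Q χ l : ℝ) : ℂ) -
        ((Ty.card * P : ℝ) : ℂ)‖ ≤ Ty.card * (C * nr q ^ A * R ^ (1 - δ) + 2 ^ q.card) := by
      rw [hsum q hq]
      have h1 : ((Ty.card * P : ℝ) : ℂ) = ∑ _x ∈ Ty, (P : ℂ) := by
        rw [Finset.sum_const, nsmul_eq_mul]
        push_cast
        rfl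
      rw [h1, ← Finset.sum_sub_distrib]
      refine (norm_sum_le _ _).trans ((Finset.sum_le_sum hmain).trans ?_)
      rw [Finset.sum_const, nsmul_eq_mul]
    rw [← Complex.ofReal_sub, Complex.norm_real, Real.norm_eq_abs] at htot
    rw [hT]
    refine htot.trans ?_
    have hA0 : nr q ^ A ≤ nr q ^ (A + 1) := pow_le_pow_right₀ hq1 (by omega)
    have hA1 : nr q ≤ nr q ^ (A + 1) := le_self_pow₀ hq1 (by omega)
    have hX0 : 0 ≤ nr q ^ (A + 1) := by positivity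
    have hRp : 0 ≤ R ^ (1 - δ) := by linarith
    have e1 : C * nr q ^ A * R ^ (1 - δ) ≤ C * (nr q ^ (A + 1) * R ^ (1 - δ)) := by
      rw [mul_assoc]
      exact mul_le_mul_of_nonneg_left (mul_le_mul_of_nonneg_right hA0 hRp) (by linarith)
    have e2 : (2 : ℝ) ^ q.card ≤ nr q ^ (A + 1) * R ^ (1 - δ) := by
      refine (hq2.trans hA1).trans ?_
      exact le_mul_of_one_le_right hX0 hR1
    have e3 : 0 ≤ nr q ^ (A + 1) * R ^ (1 - δ) := mul_nonneg hX0 hRp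
    calc (Ty.card : ℝ) * (C * nr q ^ A * R ^ (1 - δ) + 2 ^ q.card)
        ≤ Ty.card * (C * (nr q ^ (A + 1) * R ^ (1 - δ)) + nr q ^ (A + 1) * R ^ (1 - δ)) :=
          mul_le_mul_of_nonneg_left (add_le_add e1 e2) (by linarith)
      _ = Ty.card * (C + 1) * (nr q ^ (A + 1) * R ^ (1 - δ)) := by ring
      _ ≤ (Ty.card * (C + 1) + N) * (nr q ^ (A + 1) * R ^ (1 - δ)) :=
          mul_le_mul_of_nonneg_right (by linarith) e3
      _ = (Ty.card * (C + 1) + N) * nr q ^ (A + 1) * R ^ (1 - δ) := by ring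

end H97.AQ
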