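import Pool.Agent.H97.AQ.Exp
import Pool.Agent.H97.AQ.Trm
import Pool.Agent.H97.AQ.Sch

/-!
# [H97 AQ Eps] the sum for one unit `ε` (90-130 lines). File Pool/Agent/H97/AQ/Eps.lean

`hc` from `fou` for `hh E Q χ₁ ε` (`hh` is `0` or `1`), `exp_all`. The term of `κ, c` is `hc κ * (sign * phase) * T`, `|sign * phase| = 1` (`ep_norm`), and by `cmb` with `t = tz q (cx q c)` `T = (∏_{l ∈ t} gg) * ∑_{s ∈ SF (R / nr t), Disjoint s q} ∏ gg`.
- If `κ ≠ 0` or some `cx q c l ≠ 0`, `l ∈ q` (that is: not both `κ = 0`, `c = 0`): `|∏_{l ∈ t} gg| ≤ 2 ^ #q ≤ nr q` (`gg_le`; `2 ≤ nm l`: `H57.SL.bdn_two`), and `trm_non` at `Y = R / nr t` (if `R / nr t < 1` the sum is empty: `Pr.mem_SF`, `one_le_nn`, so `0`); `(R / nr t) ^ (1 - δ) ≤ R ^ (1 - δ)`. Number of these terms: at most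
  `3 ^ r * 3 ^ #q ≤ 3 ^ r * nr q ^ 2`.
- `κ = 0`, `c = 0`: `t = q`, sign `(-1) ^ #q`, phase `ep 3 0 = 1`, `fF = 0`: `gg = gm` (`gg_zero`). Hypothesis `h1` at `Y = R / nr q`: for `R ≥ nr q`: `|∑ - L ∏ (1 + gm/nm)⁻¹ R / nr q| ≤ C₁ nr q ^ A₁ R ^ (1 - δ₁)`; for `R < nr q` the sum is `0` and `L ∏ (..) R / nr q ≤ L ≤ L * R ^ (1 - δ)`. Multiply by `(-1) ^ #q ∏_{l ∈ q} gm l`
  (at most `2 ^ #q ≤ nr q`): `(-1) ^ #q (∏ gm l) (∏ (1 + gm l / nm l)⁻¹) / nr q = ∏_{l ∈ q} (- (gm l / (nm l + gm l))) = ∏ ml`.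
The result is a statement about real numbers: `Te` is real, take the norm of the difference in `ℂ` (`Complex.norm_real`). `δ = min`.
-/

set_option autoImplicit false

open scoped NumberField Classical
open IsDedekindDomain H38.ML H63.MA H48.KV H38.WM H57.LC H57.LI
open H48.T3 hiding Ch

noncomputable section

namespace H97.AQ

variable {K : IntermediateField ℚ QBar} [NumberField K] {M : IntermediateField K QBar}
  [NumberField M] {τ : Gal(M/K)} {ω : M} {S : Finset (Pl K)} (E : SD τ ω S)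

/-- the local factor -/
def ml (l : Pl K) : ℝ := -(gm E l / (nm l + gm E l))

private theorem eps_two (q : Finset (Pl K)) : (2 : ℝ) ^ q.card ≤ nr q := by
  unfold nr
  rw [← Finset.prod_const]
  refine Finset.prod_le_prod (fun _ _ => by norm_num) fun v _ => ?_
  exact_mod_cast H57.LI.prk_two v

private theorem eps_nn (s : Finset (Pl K)) : (prK K).nn s = nr s := by
  unfold Pr.nn nr
  refine Finset.prod_congr rfl fun l _ => ?_
  rw [prK_N]

private theorem eps_empty (n : ℝ) (hn : 0 < n) (R : ℝ) (h : R / n < 1) :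
    (prK K).SF (R / n) = ∅ := by
  rw [Finset.eq_empty_iff_forall_notMem]
  intro s hs
  have h1 := (prK K).mem_SF.1 hs
  have h2 := (prK K).one_le_nn s
  linarith

private theorem eps_pow {R n δ δ' : ℝ} (hR : 1 ≤ R) (hn : 1 ≤ n) (hY : 1 ≤ R / n) (hδ : δ ≤ δ')
    (hδ' : δ' ≤ 1 / 4) : (R / n) ^ (1 - δ') ≤ R ^ (1 - δ) := by
  have h1 : R / n ≤ R := div_le_self (by linarith) hn
  calc (R / n) ^ (1 - δ') ≤ R ^ (1 - δ') :=
        Real.rpow_le_rpow (by linarith) h1 (by linarith)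
    _ ≤ R ^ (1 - δ) := Real.rpow_le_rpow_of_exponent_le hR (by linarith)

theorem eps (Q : DP K QBar) (χ₁ : Gal(QBar/K) →* Multiplicative (ZMod 3)) {ε : Mˣ}
    (hu : TUnit E.D.S0 ε) (hε : IsPow 3 (ε * ta τ ε)) (L C₁ : ℝ) (A₁ : ℕ) (δ₁ : ℝ) (hL : 0 < L)
    (hC₁ : 1 ≤ C₁) (hδ₁ : 0 < δ₁) (hδ₁' : δ₁ ≤ 1 / 4)
    (h1 : ∀ q : Finset (Pl K), ∀ Y : ℝ, 1 ≤ Y →
      |∑ s ∈ ((prK K).SF Y).filter (fun s => Disjoint s q), ∏ l ∈ s, gm E l -
        L * (∏ l ∈ q, (1 + gm E l / nm l)⁻¹) * Y| ≤ C₁ * nr q ^ A₁ * Y ^ (1 - δ₁)) :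
    ∃ (C : ℝ) (A : ℕ) (δ : ℝ), 1 ≤ C ∧ 0 < δ ∧ δ ≤ 1 / 4 ∧
      ∀ q : Finset (Pl K), (∀ l ∈ q, l ∉ S) → ∀ R : ℝ, 1 ≤ R →
      |Te E Q χ₁ ε q R - (∑ c, hh E Q χ₁ ε c) / 3 ^ E.D.r * L * R * ∏ l ∈ q, ml E l| ≤
        C * nr q ^ A * R ^ (1 - δ) := by
  have h01 : ∀ c, 0 ≤ hh E Q χ₁ ε c ∧ hh E Q χ₁ ε c ≤ 1 := by
    intro c
    unfold hh
    split_ifs
    · exact ⟨zero_le_one, le_rfl⟩
    · exact ⟨le_rfl, zero_le_one⟩
  obtain ⟨hc, hhc, hcn, hc0⟩ := fou E.D.r (hh E Q χ₁ ε) h01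
  obtain ⟨C₂, A₂, δ₂, hC₂, hδ₂, hδ₂', h2⟩ := trm_non E Q
  have hHn : ‖hc 0‖ ≤ 1 := hcn 0
  obtain ⟨H, hH⟩ : ∃ H : ℝ, H = (∑ c, hh E Q χ₁ ε c) / 3 ^ E.D.r := ⟨_, rfl⟩
  rw [← hH] at hc0
  rw [hc0, Complex.norm_real, Real.norm_eq_abs] at hHn
  obtain ⟨δ, hδdef⟩ : ∃ δ, δ = min δ₁ δ₂ := ⟨_, rfl⟩
  have hδ1 : δ ≤ δ₁ := by rw [hδdef]; exact min_le_left _ _
  have hδ2 : δ ≤ δ₂ := by rw [hδdef]; exact min_le_right _ _
  have hδ0 : 0 < δ := by rw [hδdef]; exact lt_min hδ₁ hδ₂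
  have h3r : (0 : ℝ) < 3 ^ E.D.r := by positivity
  refine ⟨3 ^ E.D.r * C₂ + C₁ + L, A₁ + A₂ + 3, δ, by nlinarith, hδ0, by linarith, ?_⟩
  intro q hq R hR
  rw [← hH]
  have hn1 : 1 ≤ nr q := one_le_nr q
  have hn0 : 0 < nr q := by linarith
  have hRδ : 1 ≤ R ^ (1 - δ) := Real.one_le_rpow hR (by linarith)
  have h2q := eps_two q
  -- the terms
  let t : (q → ZMod 3) → Finset (Pl K) := fun c => tz q (cx q c)
  have htq : ∀ c, t c ⊆ q := fun c => Finset.filter_subset _ _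
  let V : (Fin E.D.r → ZMod 3) → (q → ZMod 3) → ℂ := fun κ c =>
    ∑ s ∈ ((prK K).SF (R / nr (t c))).filter (fun s => Disjoint s q),
      ∏ l ∈ s, gg E (fF E Q κ q (cx q c)) l
  let T : (Fin E.D.r → ZMod 3) × (q → ZMod 3) → ℂ := fun p =>
    hc p.1 * ((-1) ^ (t p.2).card * ep 3 (∑ l ∈ q, cx q p.2 l * E.D.LL (wl M Q l) ε)) *
      ((∏ l ∈ t p.2, gg E (fF E Q p.1 q (cx q p.2)) l) * V p.1 p.2)
  have hTe : ((Te E Q χ₁ ε q R : ℝ) : ℂ) = ∑ p, T p := by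
    have h3 : ((Te E Q χ₁ ε q R : ℝ) : ℂ) = ∑ a ∈ AR E R, (hh E Q χ₁ ε (qf E.D a) : ℂ) *
        ∏ l ∈ q, (H67.AQ.mu Q (chx ω (ε * ya E a)) l : ℂ) := by
      unfold Te
      rw [Complex.ofReal_sum]
      refine Finset.sum_congr rfl fun a _ => ?_
      rw [Complex.ofReal_mul, Complex.ofReal_prod]
    rw [h3, exp_all E Q χ₁ hu hε hc hhc q hq R, Fintype.sum_prod_type]
    refine Finset.sum_congr rfl fun κ _ => Finset.sum_congr rfl fun c _ => ?_
    rw [cmb E (fF E Q κ q (cx q c)) q (tz q (cx q c)) (htq c) R]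
  -- the norm of a term
  have hT : ∀ p, ‖T p‖ ≤ nr q * ‖V p.1 p.2‖ := by
    intro p
    have e1 : ‖hc p.1 * ((-1) ^ (t p.2).card *
        ep 3 (∑ l ∈ q, cx q p.2 l * E.D.LL (wl M Q l) ε))‖ ≤ 1 := by
      rw [norm_mul, norm_mul, norm_pow, norm_neg, norm_one, one_pow, one_mul, ep_norm, mul_one]
      exact hcn _
    have e2 : ‖∏ l ∈ t p.2, gg E (fF E Q p.1 q (cx q p.2)) l‖ ≤ nr q := by
      rw [norm_prod]
      calc ∏ l ∈ t p.2, ‖gg E (fF E Q p.1 q (cx q p.2)) l‖ ≤ ∏ l ∈ t p.2, (2 : ℝ) :=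
            Finset.prod_le_prod (fun _ _ => norm_nonneg _) fun l _ => gg_le E _ l
        _ = 2 ^ (t p.2).card := by rw [Finset.prod_const]
        _ ≤ 2 ^ q.card := pow_le_pow_right₀ (by norm_num) (Finset.card_le_card (htq _))
        _ ≤ nr q := h2q
    show ‖hc p.1 * ((-1) ^ (t p.2).card * ep 3 (∑ l ∈ q, cx q p.2 l * E.D.LL (wl M Q l) ε)) *
      ((∏ l ∈ t p.2, gg E (fF E Q p.1 q (cx q p.2)) l) * V p.1 p.2)‖ ≤ _
    rw [norm_mul, norm_mul (∏ l ∈ t p.2, gg E (fF E Q p.1 q (cx q p.2)) l)]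
    calc _ ≤ 1 * (nr q * ‖V p.1 p.2‖) := by
          apply mul_le_mul e1 _ (by positivity) zero_le_one
          exact mul_le_mul_of_nonneg_right e2 (norm_nonneg _)
      _ = _ := one_mul _
  -- the terms different from the main one
  have hV : ∀ p : (Fin E.D.r → ZMod 3) × (q → ZMod 3), p ≠ 0 →
      ‖V p.1 p.2‖ ≤ C₂ * nr q ^ A₂ * R ^ (1 - δ) := by
    intro p hp
    have hn : 1 ≤ nr (t p.2) := one_le_nr _
    have hp' : p.1 ≠ 0 ∨ ∃ l ∈ q, cx q p.2 l ≠ 0 := by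
      by_contra hcon
      push Not at hcon
      apply hp
      refine Prod.ext hcon.1 (funext fun l => ?_)
      have := hcon.2 l.1 l.2
      unfold cx at this
      rw [dif_pos l.2] at this
      exact this
    by_cases hY : 1 ≤ R / nr (t p.2)
    · refine (h2 q hq p.1 (cx q p.2) hp' _ hY).trans ?_
      exact mul_le_mul_of_nonneg_left (eps_pow hR hn hY hδ2 hδ₂') (by positivity)
    · have h3 : V p.1 p.2 = 0 := by
        show ∑ s ∈ ((prK K).SF (R / nr (t p.2))).filter (fun s => Disjoint s q), _ = _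
        rw [eps_empty _ (by linarith) R (not_le.1 hY), Finset.filter_empty, Finset.sum_empty]
      rw [h3, norm_zero]
      positivity
  -- the main term
  have htz : t 0 = q := by
    refine Finset.filter_true_of_mem fun l hl => ?_
    unfold cx
    rw [dif_pos hl]
    rfl
  have hcx : ∀ l, cx q 0 l = 0 := by
    intro l
    unfold cx
    split_ifs
    · rfl
    · rfl
  have hfF : fF E Q 0 q (cx q 0) = fun _ => 0 := by
    funext v
    unfold fF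
    simp only [Pi.zero_apply, zero_mul, hcx, Finset.sum_const_zero, add_zero]
  obtain ⟨Sg, hSg⟩ : ∃ Sg : ℝ, Sg = ∑ s ∈ ((prK K).SF (R / nr q)).filter (fun s => Disjoint s q),
    ∏ l ∈ s, gm E l := ⟨_, rfl⟩
  obtain ⟨G, hG⟩ : ∃ G : ℝ, G = ∏ l ∈ q, gm E l := ⟨_, rfl⟩
  have hT0 : T 0 = ((H * (-1) ^ q.card * G * Sg : ℝ) : ℂ) := by
    have e1 : ∀ s : Finset (Pl K), ∏ l ∈ s, gg E (fF E Q 0 q (cx q 0)) l =
        ((∏ l ∈ s, gm E l : ℝ) : ℂ) := by
      intro s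
      rw [Complex.ofReal_prod]
      refine Finset.prod_congr rfl fun l _ => ?_
      rw [hfF, gg_zero]
    have e2 : V 0 0 = ((Sg : ℝ) : ℂ) := by
      show ∑ s ∈ ((prK K).SF (R / nr (t 0))).filter (fun s => Disjoint s q), _ = _
      rw [htz, hSg, Complex.ofReal_sum]
      exact Finset.sum_congr rfl fun s _ => e1 s
    have e3 : ep 3 (∑ l ∈ q, cx q 0 l * E.D.LL (wl M Q l) ε) = 1 := by
      simp only [hcx, zero_mul, Finset.sum_const_zero]
      unfold ep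
      simp
    show hc 0 * ((-1) ^ (t 0).card * ep 3 (∑ l ∈ q, cx q 0 l * E.D.LL (wl M Q l) ε)) *
      ((∏ l ∈ t 0, gg E (fF E Q 0 q (cx q 0)) l) * V 0 0) = _
    rw [e2, e3, htz, e1 q, ← hG, hc0]
    push_cast
    ring
  -- the comparison of the main terms
  have hml : H * L * R * ∏ l ∈ q, ml E l =
      H * (-1) ^ q.card * G * (L * (∏ l ∈ q, (1 + gm E l / nm l)⁻¹) * (R / nr q)) := by
    have e1 : ∏ l ∈ q, ml E l = (-1) ^ q.card * (G * ((∏ l ∈ q, (1 + gm E l / nm l)⁻¹) / nr q)) := by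
      rw [hG]
      unfold nr
      rw [← Finset.prod_div_distrib, ← Finset.prod_mul_distrib, ← Finset.prod_const,
        ← Finset.prod_mul_distrib]
      refine Finset.prod_congr rfl fun l _ => ?_
      have h3 : (0 : ℝ) < nm l := by
        have := H57.LI.prk_two l
        have h4 : (2 : ℝ) ≤ nm l := by exact_mod_cast this
        linarith
      have h4 := (gm_le E l).1
      have h5 : (0 : ℝ) < nm l + gm E l := by linarith
      unfold ml
      have h6 : 1 + gm E l / nm l = (nm l + gm E l) / nm l := by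
        field_simp
      rw [h6]
      field_simp
    rw [e1]
    ring
  have hP1 : ∏ l ∈ q, (1 + gm E l / nm l)⁻¹ ≤ 1 := by
    refine Finset.prod_le_one (fun l _ => ?_) fun l _ => ?_
    · have := (gm_le E l).1
      positivity
    · have := (gm_le E l).1
      apply inv_le_one_of_one_le₀
      have h3 : 0 ≤ gm E l / nm l := by positivity
      linarith
  have hP0 : 0 ≤ ∏ l ∈ q, (1 + gm E l / nm l)⁻¹ := by
    refine Finset.prod_nonneg fun l _ => ?_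
    have := (gm_le E l).1
    positivity
  have hG0 : 0 ≤ G := by
    rw [hG]
    exact Finset.prod_nonneg fun l _ => (gm_le E l).1
  have hG1 : G ≤ nr q := by
    rw [hG]
    calc ∏ l ∈ q, gm E l ≤ ∏ l ∈ q, (2 : ℝ) :=
          Finset.prod_le_prod (fun l _ => (gm_le E l).1) fun l _ => (gm_le E l).2
      _ = 2 ^ q.card := by rw [Finset.prod_const]
      _ ≤ nr q := h2q
  have hS1 : |Sg - L * (∏ l ∈ q, (1 + gm E l / nm l)⁻¹) * (R / nr q)| ≤
      (C₁ + L) * nr q ^ A₁ * R ^ (1 - δ) := by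
    have hnA : 1 ≤ nr q ^ A₁ := one_le_pow₀ hn1
    by_cases hY : 1 ≤ R / nr q
    · have h3 := h1 q _ hY
      rw [← hSg] at h3
      refine h3.trans ?_
      have h4 := eps_pow hR hn1 hY hδ1 hδ₁'
      calc C₁ * nr q ^ A₁ * (R / nr q) ^ (1 - δ₁) ≤ C₁ * nr q ^ A₁ * R ^ (1 - δ) :=
            mul_le_mul_of_nonneg_left h4 (by positivity)
        _ ≤ _ := by
          apply mul_le_mul_of_nonneg_right _ (by positivity)
          apply mul_le_mul_of_nonneg_right _ (by positivity)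
          linarith
    · have h3 : Sg = 0 := by
        rw [hSg, eps_empty _ hn0 R (not_le.1 hY), Finset.filter_empty, Finset.sum_empty]
      rw [h3, zero_sub, abs_neg]
      have hRn : 0 ≤ R / nr q := by positivity
      rw [abs_of_nonneg (mul_nonneg (mul_nonneg hL.le hP0) hRn)]
      calc L * (∏ l ∈ q, (1 + gm E l / nm l)⁻¹) * (R / nr q) ≤ L * 1 * 1 := by
            apply mul_le_mul (mul_le_mul_of_nonneg_left hP1 hL.le) (not_le.1 hY).le hRn
            linarith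
        _ = L * (1 * 1) := by ring
        _ ≤ (C₁ + L) * (nr q ^ A₁ * R ^ (1 - δ)) := by
          apply mul_le_mul (by linarith) (mul_le_mul hnA hRδ zero_le_one (by linarith))
            (by norm_num) (by linarith)
        _ = _ := by ring
  have hmain : ‖T 0 - ((H * L * R * ∏ l ∈ q, ml E l : ℝ) : ℂ)‖ ≤
      (C₁ + L) * nr q ^ (A₁ + 1) * R ^ (1 - δ) := by
    rw [hT0, ← Complex.ofReal_sub, Complex.norm_real, Real.norm_eq_abs, hml, ← mul_sub, abs_mul,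
      abs_mul, abs_mul, abs_pow, abs_neg, abs_one, one_pow, mul_one, abs_of_nonneg hG0]
    have hb : 0 ≤ (C₁ + L) * nr q ^ A₁ * R ^ (1 - δ) := by positivity
    calc |H| * G * |Sg - L * (∏ l ∈ q, (1 + gm E l / nm l)⁻¹) * (R / nr q)| ≤
          (1 * nr q) * ((C₁ + L) * nr q ^ A₁ * R ^ (1 - δ)) := by
          apply mul_le_mul _ hS1 (abs_nonneg _) (by linarith)
          exact mul_le_mul hHn hG1 hG0 zero_le_one
      _ = _ := by ring
  -- the sum of the other terms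
  have hcard : ((Finset.univ.erase (0 : (Fin E.D.r → ZMod 3) × (q → ZMod 3))).card : ℝ) ≤
      3 ^ E.D.r * nr q ^ 2 := by
    have e1 : (Finset.univ.erase (0 : (Fin E.D.r → ZMod 3) × (q → ZMod 3))).card ≤
        3 ^ E.D.r * 3 ^ q.card := by
      refine (Finset.card_le_card (Finset.erase_subset _ _)).trans ?_
      rw [Finset.card_univ, Fintype.card_prod, Fintype.card_fun, Fintype.card_fun, ZMod.card,
        Fintype.card_fin, Fintype.card_coe]
    have e2 : ((Finset.univ.erase (0 : (Fin E.D.r → ZMod 3) × (q → ZMod 3))).card : ℝ) ≤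
        3 ^ E.D.r * 3 ^ q.card := by exact_mod_cast e1
    refine e2.trans (mul_le_mul_of_nonneg_left ?_ h3r.le)
    calc (3 : ℝ) ^ q.card ≤ 4 ^ q.card := pow_le_pow_left₀ (by norm_num) (by norm_num) _
      _ = (2 ^ q.card) ^ 2 := by
        rw [← pow_mul, mul_comm, pow_mul]
        norm_num
      _ ≤ nr q ^ 2 := pow_le_pow_left₀ (by positivity) h2q 2
  have hrest : ‖∑ p ∈ Finset.univ.erase (0 : (Fin E.D.r → ZMod 3) × (q → ZMod 3)), T p‖ ≤
      3 ^ E.D.r * C₂ * nr q ^ (A₂ + 3) * R ^ (1 - δ) := by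
    calc ‖∑ p ∈ Finset.univ.erase (0 : (Fin E.D.r → ZMod 3) × (q → ZMod 3)), T p‖ ≤
          ∑ p ∈ Finset.univ.erase (0 : (Fin E.D.r → ZMod 3) × (q → ZMod 3)), ‖T p‖ :=
          norm_sum_le _ _
      _ ≤ ∑ p ∈ Finset.univ.erase (0 : (Fin E.D.r → ZMod 3) × (q → ZMod 3)),
            nr q * (C₂ * nr q ^ A₂ * R ^ (1 - δ)) := by
          refine Finset.sum_le_sum fun p hp => (hT p).trans ?_
          exact mul_le_mul_of_nonneg_left (hV p (Finset.ne_of_mem_erase hp)) hn0.le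
      _ = ((Finset.univ.erase (0 : (Fin E.D.r → ZMod 3) × (q → ZMod 3))).card : ℝ) *
            (nr q * (C₂ * nr q ^ A₂ * R ^ (1 - δ))) := by
          rw [Finset.sum_const, nsmul_eq_mul]
      _ ≤ (3 ^ E.D.r * nr q ^ 2) * (nr q * (C₂ * nr q ^ A₂ * R ^ (1 - δ))) :=
          mul_le_mul_of_nonneg_right hcard (by positivity)
      _ = _ := by ring
  have hfin : ‖((Te E Q χ₁ ε q R - H * L * R * ∏ l ∈ q, ml E l : ℝ) : ℂ)‖ ≤
      (C₁ + L) * nr q ^ (A₁ + 1) * R ^ (1 - δ) +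
        3 ^ E.D.r * C₂ * nr q ^ (A₂ + 3) * R ^ (1 - δ) := by
    rw [Complex.ofReal_sub, hTe, ← Finset.add_sum_erase Finset.univ T (Finset.mem_univ 0)]
    have e1 : T 0 + ∑ p ∈ Finset.univ.erase (0 : (Fin E.D.r → ZMod 3) × (q → ZMod 3)), T p -
        ((H * L * R * ∏ l ∈ q, ml E l : ℝ) : ℂ) = (T 0 - ((H * L * R * ∏ l ∈ q, ml E l : ℝ) : ℂ)) +
        ∑ p ∈ Finset.univ.erase (0 : (Fin E.D.r → ZMod 3) × (q → ZMod 3)), T p := by ring
    rw [e1]
    exact (norm_add_le _ _).trans (add_le_add hmain hrest)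
  rw [Complex.norm_real, Real.norm_eq_abs] at hfin
  refine hfin.trans ?_
  have e1 : nr q ^ (A₁ + 1) ≤ nr q ^ (A₁ + A₂ + 3) := pow_le_pow_right₀ hn1 (by omega)
  have e2 : nr q ^ (A₂ + 3) ≤ nr q ^ (A₁ + A₂ + 3) := pow_le_pow_right₀ hn1 (by omega)
  have e3 : (C₁ + L) * nr q ^ (A₁ + 1) * R ^ (1 - δ) ≤
      (C₁ + L) * nr q ^ (A₁ + A₂ + 3) * R ^ (1 - δ) :=
    mul_le_mul_of_nonneg_right (mul_le_mul_of_nonneg_left e1 (by linarith)) (by linarith)
  have e4 : 3 ^ E.D.r * C₂ * nr q ^ (A₂ + 3) * R ^ (1 - δ) ≤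
      3 ^ E.D.r * C₂ * nr q ^ (A₁ + A₂ + 3) * R ^ (1 - δ) :=
    mul_le_mul_of_nonneg_right (mul_le_mul_of_nonneg_left e2 (by positivity)) (by linarith)
  calc _ ≤ _ := add_le_add e3 e4
    _ = _ := by ring

end H97.AQ
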